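import Pool.Agent.helper15.XE.SpecL

/-! # Row xe:LCT (MP_5628fe_nt) -/

set_option autoImplicit false

namespace Pool.Agent.XE

open Finset ArithmeticFunction
open Pool.Agent.EC (tri TL wt)

private theorem LCT_crt (e m a r : ℕ) (he : Nat.Coprime e 30) (hm : Nat.Coprime m 30) (hme : Nat.Coprime m e) :
    ∃ ρ : ℕ, ∀ j : ℕ, (j ≡ 0 [MOD e] ∧ j ≡ r [MOD m] ∧ j ≡ a [MOD 30]) ↔ j ≡ ρ [MOD (30 * e * m)] := by
  have h1 : Nat.Coprime 30 e := he.symm
  have h2 : Nat.Coprime (30 * e) m := Nat.Coprime.mul_left hm.symm hme.symm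
  obtain ⟨x, hx1, hx2⟩ := Nat.chineseRemainder h1 a 0
  obtain ⟨ρ, hρ1, hρ2⟩ := Nat.chineseRemainder h2 x r
  refine ⟨ρ, ?_⟩
  intro j
  have hρ3 := (Nat.modEq_and_modEq_iff_modEq_mul h1).2 hρ1
  rw [← Nat.modEq_and_modEq_iff_modEq_mul h2, ← Nat.modEq_and_modEq_iff_modEq_mul h1]
  constructor
  · rintro ⟨h3, h4, h5⟩
    refine ⟨⟨?_, ?_⟩, ?_⟩
    · exact h5.trans (hx1.symm.trans hρ3.1.symm)
    · exact h3.trans (hx2.symm.trans hρ3.2.symm)
    · exact h4.trans hρ2.symm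
  · rintro ⟨⟨h3, h4⟩, h5⟩
    refine ⟨?_, ?_, ?_⟩
    · exact h4.trans (hρ3.2.trans hx2)
    · exact h5.trans hρ2
    · exact h3.trans (hρ3.1.trans hx1)

private theorem LCT_prime (e m j : ℕ) (he : Nat.Coprime e 30) (hme : ¬ Nat.Coprime m e) (h1 : e ∣ j)
    (h2 : ∃ s : ℕ, (s = j + 6 ∨ j = s + 6) ∧ m ∣ s) : False := by
  obtain ⟨p, hp, hpm, hpe⟩ := Nat.Prime.not_coprime_iff_dvd.1 hme
  obtain ⟨s, hs, hms⟩ := h2
  have h3 : p ∣ j := hpe.trans h1
  have h4 : p ∣ s := hpm.trans hms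
  have h5 : p ∣ 6 := by
    rcases hs with hs | hs
    · rw [hs] at h4
      exact (Nat.dvd_add_right h3).1 h4
    · rw [hs] at h3
      exact (Nat.dvd_add_right h4).1 h3
  have h6 : p ∣ 30 := h5.trans (by norm_num)
  have h7 : p ∣ Nat.gcd e 30 := Nat.dvd_gcd hpe h6
  rw [he] at h7
  exact hp.one_lt.ne' (Nat.dvd_one.1 h7)

/-- `wv = 0` up to `N^3` -/
private theorem LCT_supp (N : ℕ) (hN : 4 ≤ N) (v : ℝ) (hv : InB N v) (j : ℕ) (hj : ¬ N ^ 3 < j) : wv N v j = 0 := by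
  have hN0 : (0 : ℝ) < N := by
    have : 0 < N := by omega
    exact_mod_cast this
  have h1 : Real.log j ≤ 3 * Real.log N := by
    rcases Nat.eq_zero_or_pos j with h0 | h0
    · rw [h0]
      simp only [Nat.cast_zero, Real.log_zero]
      have h2 : (1 : ℝ) ≤ N := by
        have : 1 ≤ N := by omega
        exact_mod_cast this
      have := Real.log_nonneg h2
      linarith
    · have h2 : (j : ℝ) ≤ (N : ℝ) ^ 3 := by
        have : j ≤ N ^ 3 := not_lt.1 hj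
        exact_mod_cast this
      have h3 : (0 : ℝ) < j := by exact_mod_cast h0
      have h4 := Real.log_le_log h3 h2
      rw [Real.log_pow] at h4
      exact_mod_cast h4
  have h2 := hv.1
  have h5 : (0 : ℝ) < 1 / (N : ℝ) := by positivity
  unfold wv tri
  apply max_eq_left
  have h3 : 1 / (N : ℝ) ≤ |Real.log j - v| := by
    rw [abs_sub_comm]
    exact le_trans (by linarith) (le_abs_self _)
  have h4 : 1 ≤ |Real.log j - v| / (1 / (N : ℝ)) := by
    rw [le_div_iff₀ h5]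
    linarith
  linarith

theorem LCT (h1 : TRA_stmt) : LCT_stmt := by
  obtain ⟨C, hC, h⟩ := h1
  refine ⟨C, hC, ?_⟩
  intro N e m a hN he1 hm1 he hm ha v hv
  have hwin : ∀ j : ℕ, N ^ 3 < j → 6 ≤ j := by
    intro j hj
    have h3 : 4 ^ 3 ≤ N ^ 3 := Nat.pow_le_pow_left hN 3
    omega
  have hq : 1 ≤ 30 * e * m := by
    have := Nat.mul_pos (Nat.mul_pos (by norm_num : 0 < 30) he1) hm1
    omega
  have ha' : ∀ j : ℕ, j % 30 = a ↔ j ≡ a [MOD 30] := by
    intro j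
    unfold Nat.ModEq
    rw [Nat.mod_eq_of_lt ha]
  have hgen : ∀ (P : ℕ → Prop) [DecidablePred P] (r : ℕ), Nat.Coprime m e →
      (∀ j ∈ Z3 N, P j ↔ (N ^ 3 < j ∧ (j ≡ 0 [MOD e] ∧ j ≡ r [MOD m] ∧ j ≡ a [MOD 30]))) →
      |∑ j ∈ Z3 N with P j, wv N v j - Xv N v / (30 * (e : ℝ) * m)| ≤ C := by
    intro P _ r hme hP
    obtain ⟨ρ, hρ⟩ := LCT_crt e m a r he hm hme
    have h2 := h N hN v hv (30 * e * m) ρ hq
    have h3 : ∑ j ∈ Z3 N with P j, wv N v j = ∑ j ∈ Z3 N with j ≡ ρ [MOD (30 * e * m)], wv N v j := by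
      apply Finset.sum_subset
      · intro j hj
        rw [mem_filter] at hj ⊢
        exact ⟨hj.1, (hρ j).1 ((hP j hj.1).1 hj.2).2⟩
      · intro j hj hj2
        rw [mem_filter] at hj hj2
        apply LCT_supp N hN v hv
        intro h4
        exact hj2 ⟨hj.1, (hP j hj.1).2 ⟨h4, (hρ j).2 hj.2⟩⟩
    rw [h3]
    have h4 : (((30 * e * m : ℕ)) : ℝ) = 30 * (e : ℝ) * m := by push_cast; ring
    rw [h4] at h2
    exact h2
  by_cases hme : Nat.Coprime m e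
  · rw [if_pos hme]
    constructor
    · refine hgen (fun j => N ^ 3 < j ∧ e ∣ j ∧ m ∣ j + 6 ∧ j % 30 = a) (6 * (m - 1)) hme ?_
      intro j _
      have h2 : 6 * (m - 1) + 6 ≡ 0 [MOD m] := by
        rw [Nat.modEq_zero_iff_dvd]
        have : 6 * (m - 1) + 6 = m * 6 := by omega
        rw [this]
        exact dvd_mul_right m 6
      have h3 : m ∣ j + 6 ↔ j ≡ 6 * (m - 1) [MOD m] := by
        rw [← Nat.modEq_zero_iff_dvd]
        constructor
        · intro h4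
          exact Nat.ModEq.add_right_cancel' 6 (h4.trans h2.symm)
        · intro h4
          exact (Nat.ModEq.add_right 6 h4).trans h2
      rw [h3, ha' j, Nat.modEq_zero_iff_dvd]
    · refine hgen (fun j => N ^ 3 < j ∧ e ∣ j ∧ m ∣ j - 6 ∧ j % 30 = a) 6 hme ?_
      intro j hj
      have h4 : ∀ hj6 : N ^ 3 < j, (m ∣ j - 6 ↔ j ≡ 6 [MOD m]) := by
        intro hj6
        rw [← Nat.modEq_iff_dvd' (hwin j hj6)]
        exact ⟨fun h4 => h4.symm, fun h4 => h4.symm⟩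
      constructor
      · rintro ⟨h5, h6, h7, h8⟩
        exact ⟨h5, (Nat.modEq_zero_iff_dvd).2 h6, (h4 h5).1 h7, (ha' j).1 h8⟩
      · rintro ⟨h5, h6, h7, h8⟩
        exact ⟨h5, (Nat.modEq_zero_iff_dvd).1 h6, (h4 h5).2 h7, (ha' j).2 h8⟩
  · rw [if_neg hme]
    constructor
    · have h2 : (Z3 N).filter (fun j => N ^ 3 < j ∧ e ∣ j ∧ m ∣ j + 6 ∧ j % 30 = a) = ∅ := by
        rw [Finset.filter_eq_empty_iff]
        rintro j _ ⟨_, h3, h4, _⟩
        exact LCT_prime e m j he hme h3 ⟨j + 6, Or.inl rfl, h4⟩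
      rw [h2]
      simp only [sum_empty, sub_zero, abs_zero]
      exact hC.le
    · have h2 : (Z3 N).filter (fun j => N ^ 3 < j ∧ e ∣ j ∧ m ∣ j - 6 ∧ j % 30 = a) = ∅ := by
        rw [Finset.filter_eq_empty_iff]
        rintro j hj ⟨h6, h3, h4, _⟩
        have h5 := hwin j h6
        exact LCT_prime e m j he hme h3 ⟨j - 6, Or.inr (by omega), h4⟩
      rw [h2]
      simp only [sum_empty, sub_zero, abs_zero]
      exact hC.le

end Pool.Agent.XE
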