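import Pool.Agent.helper15.XE.SpecL

/-! # Row xe:T1A (MP_5628fe_nt) -/

set_option autoImplicit false

namespace Pool.Agent.XE

open Finset ArithmeticFunction
open Pool.Agent.EC (tri TL wt mnf Adm edg tI tII tyI cvl KK yN UN)
open Pool.Agent.CH (rgh Mo ClP ClB)
open GD (kp ks)

private lemma T1A_pow (a : ℕ) (c η : ℝ) (hη : 0 < η) : ∃ N₀ : ℕ, ∀ N : ℕ, N₀ ≤ N →
    c * Real.log N ^ a ≤ (N : ℝ) ^ η := by
  have h1 := isLittleO_log_rpow_rpow_atTop (a : ℝ) hη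
  have h2 := h1.bound (show (0 : ℝ) < 1 / (|c| + 1) by positivity)
  have h3 := (tendsto_natCast_atTop_atTop (R := ℝ)).eventually h2
  obtain ⟨N₀, hN₀⟩ := Filter.eventually_atTop.1 h3
  refine ⟨max N₀ 1, fun N hN => ?_⟩
  have h4 := hN₀ N (le_trans (le_max_left _ _) hN)
  have hN1 : (1 : ℝ) ≤ N := by exact_mod_cast le_trans (le_max_right _ _) hN
  have hL : 0 ≤ Real.log N := Real.log_nonneg hN1
  rw [Real.rpow_natCast, Real.norm_of_nonneg (pow_nonneg hL a),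
    Real.norm_of_nonneg (Real.rpow_nonneg (by positivity) η)] at h4
  have h5 : c * Real.log N ^ a ≤ (|c| + 1) * Real.log N ^ a :=
    mul_le_mul_of_nonneg_right (by linarith [le_abs_self c]) (pow_nonneg hL a)
  refine h5.trans ?_
  rw [one_div, ← div_eq_inv_mul, le_div_iff₀ (by positivity)] at h4
  linarith

/-- the inner sum in the variable `g` -/
private lemma T1A_in (M d e : ℕ) (hd : 1 ≤ d) (he : 1 ≤ e) (h : ℕ) (F : ℕ → ℝ) :
    ∑ j ∈ Ioc 0 M with (d ∣ j ∧ e ∣ j / d), Real.log ((j / d : ℕ) : ℝ) ^ h * F j =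
      ∑ g ∈ Ioc 0 (M / (d * e)), Real.log ((e * g : ℕ) : ℝ) ^ h * F (d * e * g) := by
  have hde : 0 < d * e := Nat.mul_pos hd he
  symm
  refine sum_bij (fun g _ => d * e * g) ?_ ?_ ?_ ?_
  · intro g hg
    rw [mem_Ioc] at hg
    rw [mem_filter, mem_Ioc]
    refine ⟨⟨Nat.mul_pos hde hg.1, ?_⟩, ?_, ?_⟩
    · have := (Nat.le_div_iff_mul_le hde).1 hg.2
      rwa [mul_comm]
    · rw [mul_assoc]; exact dvd_mul_right _ _
    · rw [mul_assoc, Nat.mul_div_cancel_left _ hd]; exact dvd_mul_right _ _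
  · intro g _ g' _ hg
    exact Nat.eq_of_mul_eq_mul_left hde hg
  · intro j hj
    rw [mem_filter, mem_Ioc] at hj
    obtain ⟨⟨h0, hM⟩, ⟨i, rfl⟩, h2⟩ := hj
    rw [Nat.mul_div_cancel_left _ hd] at h2
    obtain ⟨g, rfl⟩ := h2
    refine ⟨g, ?_, by ring⟩
    rw [mem_Ioc, Nat.le_div_iff_mul_le hde]
    refine ⟨?_, ?_⟩
    · rcases Nat.eq_zero_or_pos g with h3 | h3
      · rw [h3] at h0; simp at h0
      · exact h3
    · calc g * (d * e) = d * (e * g) := by ring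
        _ ≤ M := hM
  · intro g _
    rw [mul_assoc, Nat.mul_div_cancel_left _ hd]

/-- exchange of the sums -/
private lemma T1A_sw (M : ℕ) (X : ℝ) (hX : 1 ≤ X) (D : Finset ℕ) (hD : ∀ e ∈ D, 1 ≤ e) (h : ℕ) (ξ F : ℕ → ℝ) :
    ∑ j ∈ Ioc 0 M, (∑ d ∈ j.divisors.filter (fun d : ℕ => (d : ℝ) ≤ X),
      ξ d * (∑ e ∈ D with e ∣ j / d, ((ArithmeticFunction.moebius e : ℤ) : ℝ)) * Real.log ((j / d : ℕ) : ℝ) ^ h) * F j =
    ∑ d ∈ Ioc 0 ⌊X⌋₊, ∑ e ∈ D, ξ d * ((ArithmeticFunction.moebius e : ℤ) : ℝ) *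
      ∑ g ∈ Ioc 0 (M / (d * e)), Real.log ((e * g : ℕ) : ℝ) ^ h * F (d * e * g) := by
  have h1 : ∀ j ∈ Ioc 0 M, (∑ d ∈ j.divisors.filter (fun d : ℕ => (d : ℝ) ≤ X),
      ξ d * (∑ e ∈ D with e ∣ j / d, ((ArithmeticFunction.moebius e : ℤ) : ℝ)) * Real.log ((j / d : ℕ) : ℝ) ^ h) * F j =
      ∑ d ∈ Ioc 0 ⌊X⌋₊, ∑ e ∈ D, if (d ∣ j ∧ e ∣ j / d) then
        ξ d * ((ArithmeticFunction.moebius e : ℤ) : ℝ) * (Real.log ((j / d : ℕ) : ℝ) ^ h * F j) else 0 := by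
    intro j hj
    rw [mem_Ioc] at hj
    have hset : j.divisors.filter (fun d : ℕ => (d : ℝ) ≤ X) = (Ioc 0 ⌊X⌋₊).filter fun d => d ∣ j := by
      ext d
      rw [mem_filter, mem_filter, Nat.mem_divisors, mem_Ioc, Nat.le_floor_iff (by linarith)]
      constructor
      · rintro ⟨⟨h1, h2⟩, h3⟩
        exact ⟨⟨Nat.pos_of_dvd_of_pos h1 hj.1, h3⟩, h1⟩
      · rintro ⟨⟨h1, h2⟩, h3⟩
        exact ⟨⟨h3, by omega⟩, h2⟩
    rw [hset, sum_filter, sum_mul]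
    refine sum_congr rfl fun d _ => ?_
    by_cases h2 : d ∣ j
    · rw [if_pos h2, sum_filter, mul_sum, sum_mul, sum_mul]
      refine sum_congr rfl fun e _ => ?_
      by_cases h3 : e ∣ j / d
      · rw [if_pos h3, if_pos ⟨h2, h3⟩]; ring
      · rw [if_neg h3, if_neg (fun h4 => h3 h4.2)]; ring
    · rw [if_neg h2, zero_mul]
      symm
      refine sum_eq_zero fun e _ => if_neg (fun h4 => h2 h4.1)
  rw [sum_congr rfl h1, sum_comm]
  refine sum_congr rfl fun d hd => ?_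
  rw [sum_comm]
  refine sum_congr rfl fun e he => ?_
  rw [← sum_filter, ← mul_sum, T1A_in M d e (mem_Ioc.1 hd).1 (hD e he)]

theorem T1A (h1 : BV2_stmt) (h2 : ABL_stmt) (_h3 : WVB_stmt) : T1A_stmt := by
  obtain ⟨C, hC, hBV⟩ := h1 (1 / 5000) (by norm_num)
  obtain ⟨N₁, hAB⟩ := h2
  obtain ⟨N₂, hN₂⟩ := T1A_pow 4 (64 * C) (1 / 10000) (by norm_num)
  refine ⟨max (max N₁ N₂) 70, ?_⟩
  intro N hN v hv r R hR D hD h X ξ hh hX hξ
  have hN1 : N₁ ≤ N := le_trans (le_trans (le_max_left _ _) (le_max_left _ _)) hN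
  have hN2 : N₂ ≤ N := le_trans (le_trans (le_max_right _ _) (le_max_left _ _)) hN
  have hN70 : 70 ≤ N := le_trans (le_max_right _ _) hN
  have hNR : (70 : ℝ) ≤ N := by exact_mod_cast hN70
  have hNpos : (0 : ℝ) < N := by linarith
  have hNone : (1 : ℝ) ≤ N := by linarith
  have hX0 : 0 ≤ X := by linarith
  set L : ℝ := Real.log N with hL
  have hL4 : 4 ≤ L := by
    have h4 : Real.exp 1 ≤ 2.7182818286 := Real.exp_one_lt_d9.le
    have h5 : Real.exp 4 ≤ N := by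
      have h6 : Real.exp 4 = Real.exp 1 ^ 4 := by
        rw [← Real.exp_nat_mul]; norm_num
      rw [h6]
      calc Real.exp 1 ^ 4 ≤ (2.7182818286 : ℝ) ^ 4 := pow_le_pow_left₀ (Real.exp_pos 1).le h4 4
        _ ≤ 70 := by norm_num
        _ ≤ N := hNR
    rw [hL, Real.le_log_iff_exp_le hNpos]
    exact h5
  have hlog64 : 1 + Real.log (64 * (N : ℝ) ^ 3) ≤ 5 * L := by
    rw [Real.log_mul (by norm_num) (by positivity), Real.log_pow]
    have h4 : Real.log 64 ≤ L := by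
      rw [hL]; exact Real.log_le_log (by norm_num) (by linarith)
    push_cast
    linarith
  have hlog0 : 0 ≤ 1 + Real.log (64 * (N : ℝ) ^ 3) := by
    have : (1 : ℝ) ≤ 64 * (N : ℝ) ^ 3 := by
      have := one_le_pow₀ hNone (n := 3)
      linarith
    have := Real.log_nonneg this
    linarith
  have hQ : 1 ≤ QV N := by
    unfold QV
    exact Real.one_le_rpow hNone (by norm_num)
  obtain ⟨G, hG1, hG2⟩ := hBV (QV N) R hQ hR
  -- the inner sums
  have hS : ∀ m ∈ Mo (QV N), ∀ d e : ℕ, 1 ≤ d → 1 ≤ e → (e : ℝ) ≤ N →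
      |∑ g ∈ Ioc 0 (64 * N ^ 3 / (d * e)), Real.log ((e * g : ℕ) : ℝ) ^ h *
        (wv N v (d * e * g) * kp R (30 * m) (r m) (d * e * g))| ≤ 40 * L ^ 2 * G m := by
    intro m hm d e hd he heN
    have hGm := hG1 m hm
    have hk : 1 ≤ d * e := Nat.mul_pos hd he
    have hle : 64 * N ^ 3 / (d * e) ≤ 64 * N ^ 3 := Nat.div_le_self _ _
    have hA : ∀ h' : ℕ, h' ≤ 1 →
        |∑ g ∈ Ioc 0 (64 * N ^ 3 / (d * e)), kp R (30 * m) (r m) (d * e * g) * Real.log g ^ h' *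
          wv N v (d * e * g)| ≤ 20 * L * G m := by
      intro h' hh'
      have h4 := hAB N hN1 v hv (d * e) h' (64 * N ^ 3 / (d * e)) (G m)
        (fun g => kp R (30 * m) (r m) (d * e * g)) hk hh' hle
        (fun Y => (hG1 m hm).2 (r m) (d * e) Y)
      refine h4.trans ?_
      have h5 := mul_le_mul_of_nonneg_right hlog64 hGm.1
      nlinarith [h5]
    have hA0 := hA 0 (by norm_num)
    have hLG : 0 ≤ L * G m := mul_nonneg (by linarith) hGm.1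
    interval_cases h
    · have h4 : ∑ g ∈ Ioc 0 (64 * N ^ 3 / (d * e)), Real.log ((e * g : ℕ) : ℝ) ^ 0 *
          (wv N v (d * e * g) * kp R (30 * m) (r m) (d * e * g)) =
          ∑ g ∈ Ioc 0 (64 * N ^ 3 / (d * e)), kp R (30 * m) (r m) (d * e * g) * Real.log g ^ 0 *
          wv N v (d * e * g) := by
        refine sum_congr rfl fun g _ => ?_
        rw [pow_zero, pow_zero]; ring
      rw [h4]
      refine hA0.trans ?_
      nlinarith [hLG, hL4]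
    · have hA1 := hA 1 le_rfl
      have h4 : ∑ g ∈ Ioc 0 (64 * N ^ 3 / (d * e)), Real.log ((e * g : ℕ) : ℝ) ^ 1 *
          (wv N v (d * e * g) * kp R (30 * m) (r m) (d * e * g)) =
          Real.log e * ∑ g ∈ Ioc 0 (64 * N ^ 3 / (d * e)), kp R (30 * m) (r m) (d * e * g) * Real.log g ^ 0 *
          wv N v (d * e * g) +
          ∑ g ∈ Ioc 0 (64 * N ^ 3 / (d * e)), kp R (30 * m) (r m) (d * e * g) * Real.log g ^ 1 *
          wv N v (d * e * g) := by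
        rw [mul_sum, ← sum_add_distrib]
        refine sum_congr rfl fun g hg => ?_
        have hg1 : (0 : ℝ) < g := by exact_mod_cast (mem_Ioc.1 hg).1
        have he1 : (0 : ℝ) < e := by exact_mod_cast he
        rw [Nat.cast_mul, Real.log_mul he1.ne' hg1.ne']
        ring
      rw [h4]
      have he1 : (0 : ℝ) < e := by exact_mod_cast he
      have hloge : Real.log e ≤ L := Real.log_le_log he1 heN
      have hloge0 : 0 ≤ Real.log e := Real.log_nonneg (by exact_mod_cast he)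
      have h5 := abs_add_le (Real.log e * ∑ g ∈ Ioc 0 (64 * N ^ 3 / (d * e)), kp R (30 * m) (r m) (d * e * g) * Real.log g ^ 0 *
          wv N v (d * e * g)) (∑ g ∈ Ioc 0 (64 * N ^ 3 / (d * e)), kp R (30 * m) (r m) (d * e * g) * Real.log g ^ 1 *
          wv N v (d * e * g))
      refine h5.trans ?_
      rw [abs_mul, abs_of_nonneg hloge0]
      have h6 := mul_le_mul hloge hA0 (abs_nonneg _) (by linarith)
      nlinarith [h6, hA1, hLG, hL4]
  -- one modulus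
  have hcardD : (#D : ℝ) ≤ (N : ℝ) ^ (1 / 5000 : ℝ) := by
    have h4 : D ⊆ Ioc 0 ⌊(N : ℝ) ^ (1 / 5000 : ℝ)⌋₊ := by
      intro e he
      rw [mem_Ioc]
      exact ⟨(hD e he).1, Nat.le_floor (hD e he).2⟩
    have h5 := card_le_card h4
    rw [Nat.card_Ioc, Nat.sub_zero] at h5
    have h6 : (#D : ℝ) ≤ ((⌊(N : ℝ) ^ (1 / 5000 : ℝ)⌋₊ : ℕ) : ℝ) := by exact_mod_cast h5
    exact h6.trans (Nat.floor_le (by positivity))
  have hM : ∀ m ∈ Mo (QV N), |∑ j ∈ Z3 N, (∑ d ∈ j.divisors.filter (fun d : ℕ => (d : ℝ) ≤ X),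
      ξ d * (∑ e ∈ D with e ∣ j / d, ((ArithmeticFunction.moebius e : ℤ) : ℝ)) * Real.log ((j / d : ℕ) : ℝ) ^ h) *
        wv N v j * kp R (30 * m) (r m) j| ≤ X * (N : ℝ) ^ (1 / 5000 : ℝ) * (40 * L ^ 4) * G m := by
    intro m hm
    have hGm := hG1 m hm
    have h4 : ∑ j ∈ Z3 N, (∑ d ∈ j.divisors.filter (fun d : ℕ => (d : ℝ) ≤ X),
      ξ d * (∑ e ∈ D with e ∣ j / d, ((ArithmeticFunction.moebius e : ℤ) : ℝ)) * Real.log ((j / d : ℕ) : ℝ) ^ h) *
        wv N v j * kp R (30 * m) (r m) j =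
        ∑ j ∈ Ioc 0 (64 * N ^ 3), (∑ d ∈ j.divisors.filter (fun d : ℕ => (d : ℝ) ≤ X),
      ξ d * (∑ e ∈ D with e ∣ j / d, ((ArithmeticFunction.moebius e : ℤ) : ℝ)) * Real.log ((j / d : ℕ) : ℝ) ^ h) *
        (wv N v j * kp R (30 * m) (r m) j) := by
      unfold Z3
      exact sum_congr rfl fun j _ => by rw [mul_assoc]
    rw [h4, T1A_sw (64 * N ^ 3) X hX D (fun e he => (hD e he).1) h ξ (fun j => wv N v j * kp R (30 * m) (r m) j)]
    refine (abs_sum_le_sum_abs _ _).trans ?_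
    have h5 : ∀ d ∈ Ioc 0 ⌊X⌋₊, |∑ e ∈ D, ξ d * ((ArithmeticFunction.moebius e : ℤ) : ℝ) *
        ∑ g ∈ Ioc 0 (64 * N ^ 3 / (d * e)), Real.log ((e * g : ℕ) : ℝ) ^ h *
          (wv N v (d * e * g) * kp R (30 * m) (r m) (d * e * g))| ≤ #D * (L ^ 2 * (40 * L ^ 2 * G m)) := by
      intro d hd
      refine (abs_sum_le_sum_abs _ _).trans ?_
      have h6 : ∀ e ∈ D, |ξ d * ((ArithmeticFunction.moebius e : ℤ) : ℝ) *
        ∑ g ∈ Ioc 0 (64 * N ^ 3 / (d * e)), Real.log ((e * g : ℕ) : ℝ) ^ h *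
          (wv N v (d * e * g) * kp R (30 * m) (r m) (d * e * g))| ≤ L ^ 2 * (40 * L ^ 2 * G m) := by
        intro e he
        have heN : (e : ℝ) ≤ N := by
          refine (hD e he).2.trans ?_
          calc (N : ℝ) ^ (1 / 5000 : ℝ) ≤ (N : ℝ) ^ (1 : ℝ) :=
                Real.rpow_le_rpow_of_exponent_le hNone (by norm_num)
            _ = N := Real.rpow_one _
        have h7 := hS m hm d e (mem_Ioc.1 hd).1 (hD e he).1 heN
        rw [abs_mul, abs_mul]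
        have hmu : |((ArithmeticFunction.moebius e : ℤ) : ℝ)| ≤ 1 := by
          have h8 : |(moebius e : ℤ)| ≤ 1 := abs_moebius_le_one
          exact_mod_cast h8
        have h9 : |ξ d| * |((ArithmeticFunction.moebius e : ℤ) : ℝ)| ≤ L ^ 2 := by
          calc |ξ d| * |((ArithmeticFunction.moebius e : ℤ) : ℝ)| ≤ L ^ 2 * 1 :=
                mul_le_mul (hξ d) hmu (abs_nonneg _) (by positivity)
            _ = L ^ 2 := mul_one _
        exact mul_le_mul h9 h7 (abs_nonneg _) (by positivity)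
      calc _ ≤ ∑ e ∈ D, L ^ 2 * (40 * L ^ 2 * G m) := sum_le_sum h6
        _ = _ := by rw [sum_const, nsmul_eq_mul]
    calc _ ≤ ∑ d ∈ Ioc 0 ⌊X⌋₊, #D * (L ^ 2 * (40 * L ^ 2 * G m)) := sum_le_sum h5
      _ = (⌊X⌋₊ : ℝ) * (#D * (L ^ 2 * (40 * L ^ 2 * G m))) := by
        rw [sum_const, nsmul_eq_mul, Nat.card_Ioc, Nat.sub_zero]
      _ ≤ X * ((N : ℝ) ^ (1 / 5000 : ℝ) * (L ^ 2 * (40 * L ^ 2 * G m))) := by
        have hB : 0 ≤ L ^ 2 * (40 * L ^ 2 * G m) := by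
          have := hGm.1
          positivity
        exact mul_le_mul (Nat.floor_le hX0) (mul_le_mul_of_nonneg_right hcardD hB) (by positivity) hX0
      _ = _ := by ring
  refine (sum_le_sum hM).trans ?_
  rw [← mul_sum]
  have hfac : 0 ≤ X * (N : ℝ) ^ (1 / 5000 : ℝ) * (40 * L ^ 4) := by positivity
  refine (mul_le_mul_of_nonneg_left hG2 hfac).trans ?_
  have hQη : QV N ^ (1 / 5000 : ℝ) ≤ (N : ℝ) ^ (1 / 5000 : ℝ) := by
    refine Real.rpow_le_rpow (by linarith) ?_ (by norm_num)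
    unfold QV
    calc (N : ℝ) ^ (104 / 125 : ℝ) ≤ (N : ℝ) ^ (1 : ℝ) := Real.rpow_le_rpow_of_exponent_le hNone (by norm_num)
      _ = N := Real.rpow_one _
  have hlast := hN₂ N hN2
  have hRR : (0 : ℝ) ≤ (R : ℝ) ^ 2 := by positivity
  have hP : (0 : ℝ) ≤ (N : ℝ) ^ (1 / 5000 : ℝ) := by positivity
  have hCl : 40 * L ^ 4 * C ≤ (N : ℝ) ^ (1 / 10000 : ℝ) := by
    have : 0 ≤ C * L ^ 4 := by positivity
    have h8 : 64 * C * L ^ 4 ≤ (N : ℝ) ^ (1 / 10000 : ℝ) := hlast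
    nlinarith
  calc X * (N : ℝ) ^ (1 / 5000 : ℝ) * (40 * L ^ 4) * (C * QV N ^ (1 / 5000 : ℝ) * (R : ℝ) ^ 2)
      = (X * (R : ℝ) ^ 2) * ((N : ℝ) ^ (1 / 5000 : ℝ) * QV N ^ (1 / 5000 : ℝ) * (40 * L ^ 4 * C)) := by ring
    _ ≤ (X * (R : ℝ) ^ 2) * ((N : ℝ) ^ (1 / 5000 : ℝ) * (N : ℝ) ^ (1 / 5000 : ℝ) * (N : ℝ) ^ (1 / 10000 : ℝ)) := by
      refine mul_le_mul_of_nonneg_left ?_ (mul_nonneg hX0 hRR)
      refine mul_le_mul (mul_le_mul_of_nonneg_left hQη hP) hCl (by positivity) (by positivity)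
    _ = (X * (R : ℝ) ^ 2) * (N : ℝ) ^ (1 / 2000 : ℝ) := by
      rw [← Real.rpow_add hNpos, ← Real.rpow_add hNpos]
      norm_num
    _ = _ := by ring

end Pool.Agent.XE
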